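import Pool.Agent.MP_b0afd3_gt.H50.Top

set_option autoImplicit false

namespace Pool.Agent.Results.MP_b0afd3_gt.BlowUps

open Real Filter Topology Pool.Agent.MP_b0afd3_gt.H80 Pool.Agent.MP_b0afd3_gt.H79
  Pool.Agent.MP_b0afd3_gt.H50

/-- The volume conjecture for every proper generalized hyperbolic polyhedron whose graph is obtained
from the tetrahedral graph by blow-up moves, with no condition on the dihedral angles. -/
theorem result (k : ℕ) (V : Finset (ℕ × ℕ × ℕ)) (T : Finset (ℕ × ℕ × ℕ × ℕ)) (hB : Blow k V T)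
    (n : ℕ → Fin 4 → ℝ) (p : ℕ × ℕ × ℕ → Fin 3 → ℝ) (hP : Poly k V n p) (c : ℕ → Sym2 ℕ → ℕ)
    (hc : ∀ x y z, (x, y, z) ∈ V →
      (∀ m : ℕ, 1 ≤ m → Adm (2 * m + 1) (c m s(y, z)) (c m s(x, z)) (c m s(x, y))) ∧
      Conv (fun m => c m s(y, z)) (arccos (-mink (n y) (n z))) ∧
      Conv (fun m => c m s(x, z)) (arccos (-mink (n x) (n z))) ∧
      Conv (fun m => c m s(x, y)) (arccos (-mink (n x) (n y)))) :
    (∀ᶠ m : ℕ in atTop, 0 < brk T (2 * m + 1) (c m)) ∧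
    Tendsto (fun m : ℕ => 2 * π / (2 * m + 1 : ℕ) * log (brk T (2 * m + 1) (c m))) atTop
      (𝓝 (hypVol (cut k V n p))) :=
  Pool.Agent.MP_b0afd3_gt.H50.main hB hP fun x y z g =>
    ⟨(eventually_ge_atTop 1).mono (hc x y z g).1, (hc x y z g).2⟩

end Pool.Agent.Results.MP_b0afd3_gt.BlowUps
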